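import Pool.Agent.Q195.KM.DirA2

namespace Pool.Agent.Results.MP_395cce_al.MorseIffSuperlinear

open Set Filter Topology

variable {X : Type*} [MetricSpace X]

/-- Geodesic metric spaces: any two points are joined by an isometrically embedded interval. -/
def GeodesicSpace (X : Type*) [MetricSpace X] : Prop :=
  ∀ x y : X, ∃ γ : ℝ → X, γ 0 = x ∧ γ (dist x y) = y ∧
    ∀ s ∈ Icc (0:ℝ) (dist x y), ∀ t ∈ Icc (0:ℝ) (dist x y), dist (γ s) (γ t) = |s - t|

/-- `β` is a `(q, Q)`-quasi-geodesic on `[s, t]`. -/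
def IsQuasiGeodesic (q Q s t : ℝ) (β : ℝ → X) : Prop :=
  ∀ x ∈ Icc s t, ∀ y ∈ Icc s t, |x - y| / q - Q ≤ dist (β x) (β y) ∧
    dist (β x) (β y) ≤ q * |x - y| + Q

/-- The `κ`-neighbourhood of `Z` for the base point `o`. -/
def kappaNhd (κ : ℝ → ℝ) (o : X) (Z : Set X) (n : ℝ) : Set X :=
  {x | Metric.infDist x Z ≤ n * κ (dist o x)}

/-- The ray `b` is `κ`-Morse, where arbitrary quasi-geodesics are allowed. -/
def KappaMorse (κ : ℝ → ℝ) (b : ℝ → X) : Prop :=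
  ∃ m : ℝ → ℝ → ℝ, (∀ q Q, 0 ≤ m q Q) ∧ ∀ q Q : ℝ, 1 ≤ q → 0 ≤ Q →
    ∀ (β : ℝ → X) (s t : ℝ), s ≤ t → IsQuasiGeodesic q Q s t β →
      β s ∈ b '' Ici 0 → β t ∈ b '' Ici 0 →
      β '' Icc s t ⊆ kappaNhd κ (b 0) (b '' Ici 0) (m q Q)

/-- The ray `b` is `κ`-Morse, where only continuous quasi-geodesics are allowed. -/
def KappaMorseContinuous (κ : ℝ → ℝ) (b : ℝ → X) : Prop :=
  ∃ m : ℝ → ℝ → ℝ, (∀ q Q, 0 ≤ m q Q) ∧ ∀ q Q : ℝ, 1 ≤ q → 0 ≤ Q →
    ∀ (β : ℝ → X) (s t : ℝ), s ≤ t → ContinuousOn β (Icc s t) → IsQuasiGeodesic q Q s t β →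
      β s ∈ b '' Ici 0 → β t ∈ b '' Ici 0 →
      β '' Icc s t ⊆ kappaNhd κ (b 0) (b '' Ici 0) (m q Q)

/-- The infimum of the lengths of the paths from `b (t - r κ(t))` to `b (t + r κ(t))` which avoid
the open ball of radius `r κ(t)` around `b t` (infinite if there is no such path). -/
noncomputable def rho (κ : ℝ → ℝ) (b : ℝ → X) (r t : ℝ) : ENNReal :=
  ⨅ (γ : Path (b (t - r * κ t)) (b (t + r * κ t)))
    (_ : ∀ s, γ s ∉ Metric.ball (b t) (r * κ t)), eVariationOn (γ : unitInterval → X) univ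

/-- The `κ`-lower divergence of the ray `b`. -/
noncomputable def lowerDivergence (κ : ℝ → ℝ) (b : ℝ → X) (r : ℝ) : ENNReal :=
  ⨅ (t : ℝ) (_ : 0 ≤ t) (_ : r * κ t < t), rho κ b r t / ENNReal.ofReal (κ t)

/-- The `κ`-lower divergence is superlinear. -/
def Superlinear (κ : ℝ → ℝ) (b : ℝ → X) : Prop :=
  Tendsto (fun r : ℝ => lowerDivergence κ b r / ENNReal.ofReal r) atTop (𝓝 ⊤)

theorem superlinear_imp {κ : ℝ → ℝ} {b : ℝ → X} (hκ1 : ∀ t, 0 ≤ t → 1 ≤ κ t)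
    (h : Superlinear κ b) (C : ℝ) :
    ∃ r0 : ℝ, 0 < r0 ∧ ∀ t R, 0 ≤ t → r0 * κ t ≤ R → R < t →
      ¬ Q195.KM.Conn (fun y => R ≤ dist y (b t)) (C * R) (b (t - R)) (b (t + R)) := by
  have h1 : ∀ᶠ r in atTop, ENNReal.ofReal C < lowerDivergence κ b r / ENNReal.ofReal r :=
    h.eventually (lt_mem_nhds ENNReal.ofReal_lt_top)
  obtain ⟨r1, hr1⟩ := eventually_atTop.1 h1
  refine ⟨max r1 1, by positivity, ?_⟩
  intro t R ht hR hRt hconn
  have hk := hκ1 t ht
  have hk0 : 0 < κ t := by linarith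
  set r := R / κ t with hr
  have hrR : r * κ t = R := by rw [hr]; field_simp
  have hrmax : max r1 1 ≤ r := by rw [hr, le_div_iff₀ hk0]; exact hR
  have hr0 : 0 < r := lt_of_lt_of_le (by positivity) hrmax
  have h2 := hr1 r ((le_max_left _ _).trans hrmax)
  have h3 : rho κ b r t ≤ ENNReal.ofReal (C * R) := by
    obtain ⟨γ, hγ, hL⟩ := (show Q195.KM.Conn (fun y => r * κ t ≤ dist y (b t)) (C * R)
      (b (t - r * κ t)) (b (t + r * κ t)) by rw [hrR]; exact hconn).toPath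
    refine (iInf₂_le γ (fun s => ?_)).trans hL
    rw [Metric.mem_ball, not_lt]
    exact hγ s
  have h4 : lowerDivergence κ b r ≤ ENNReal.ofReal (C * R) / ENNReal.ofReal (κ t) := by
    refine (iInf₂_le t ht).trans ((iInf_le _ (by rw [hrR]; exact hRt)).trans ?_)
    exact ENNReal.div_le_div_right h3 _
  have h5 : lowerDivergence κ b r / ENNReal.ofReal r ≤ ENNReal.ofReal C := by
    refine (ENNReal.div_le_div_right h4 _).trans ?_
    rw [← ENNReal.ofReal_div_of_pos hk0, ← ENNReal.ofReal_div_of_pos hr0]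
    apply ENNReal.ofReal_le_ofReal
    have : C * R / κ t / r = C := by
      rw [← hrR]; field_simp
    rw [this]
  exact absurd h2 (not_lt.2 h5)

theorem imp_superlinear {κ : ℝ → ℝ} {b : ℝ → X} (hκ1 : ∀ t, 0 ≤ t → 1 ≤ κ t)
    (h : ∀ C : ℕ, ∃ r0 : ℝ, ∀ r, r0 ≤ r → ∀ t, 0 ≤ t → r * κ t < t →
      ¬ Q195.KM.Conn (fun y => r * κ t ≤ dist y (b t)) (C * (r * κ t)) (b (t - r * κ t))
        (b (t + r * κ t))) : Superlinear κ b := by
  rw [Superlinear, ENNReal.tendsto_nhds_top_iff_nat]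
  intro n
  obtain ⟨r0, hr0⟩ := h (n + 1)
  filter_upwards [eventually_ge_atTop (max r0 1)] with r hr
  have hr0' : 0 < r := lt_of_lt_of_le one_pos ((le_max_right _ _).trans hr)
  have h1 : ((n + 1 : ℕ) : ENNReal) ≤ lowerDivergence κ b r / ENNReal.ofReal r := by
    rw [ENNReal.le_div_iff_mul_le (Or.inl (by simpa using hr0')) (Or.inl ENNReal.ofReal_ne_top)]
    refine le_iInf₂ (fun t ht => le_iInf (fun hrt => ?_))
    have hk := hκ1 t ht
    have hk0 : 0 < κ t := by linarith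
    rw [ENNReal.le_div_iff_mul_le (Or.inl (by simpa using hk0)) (Or.inl ENNReal.ofReal_ne_top)]
    refine le_iInf₂ (fun γ hγ => ?_)
    by_contra hcon
    push Not at hcon
    refine hr0 r ((le_max_left _ _).trans hr) t ht hrt
      (Q195.KM.Conn.ofPath γ (fun s => ?_) (hcon.le.trans (le_of_eq ?_)))
    · have := hγ s
      rwa [Metric.mem_ball, not_lt] at this
    · rw [mul_assoc, ← ENNReal.ofReal_mul hr0'.le, ← ENNReal.ofReal_natCast,
        ← ENNReal.ofReal_mul (Nat.cast_nonneg _)]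
  refine lt_of_lt_of_le ?_ h1
  exact_mod_cast Nat.lt_succ_self n

/-- In every geodesic metric space (proper or not), for every monotone concave sublinear
`κ : [0, ∞) → [1, ∞)` and every geodesic ray `b`: the ray is `κ`-Morse if and only if its
`κ`-lower divergence is superlinear, whether arbitrary or only continuous quasi-geodesics are
used in the definition of `κ`-Morse. -/
theorem result {X : Type*} [MetricSpace X] (hX : GeodesicSpace X) (κ : ℝ → ℝ)
    (hκ1 : ∀ t, 0 ≤ t → 1 ≤ κ t) (hmono : MonotoneOn κ (Ici 0)) (hconc : ConcaveOn ℝ (Ici 0) κ)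
    (hsub : Tendsto (fun t => κ t / t) atTop (𝓝 0)) (b : ℝ → X)
    (hb : ∀ s, 0 ≤ s → ∀ t, 0 ≤ t → dist (b s) (b t) = |s - t|) :
    (KappaMorse κ b ↔ Superlinear κ b) ∧ (KappaMorseContinuous κ b ↔ Superlinear κ b) := by
  have hA : Superlinear κ b → KappaMorse κ b := by
    intro h
    have hSL := superlinear_imp hκ1 h
    have h1 : ∀ q Q : ℝ, ∃ m : ℝ, 0 ≤ m ∧ (0 < q → ∀ (β : ℝ → X) (s t : ℝ), s ≤ t →
        Q195.KM.IsQG q Q s t β → β s ∈ b '' Ici 0 → β t ∈ b '' Ici 0 → ∀ x ∈ Icc s t,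
        Metric.infDist (β x) (b '' Ici 0) ≤ m * κ (dist (b 0) (β x))) := by
      intro q Q
      by_cases hq : 0 < q
      · obtain ⟨m, hm0, hm⟩ := Q195.KM.dirA hX hb hmono hκ1 hconc hsub hSL q Q hq
        exact ⟨m, hm0, fun _ => hm⟩
      · exact ⟨0, le_rfl, fun h => absurd h hq⟩
    choose m hm0 hm using h1
    refine ⟨m, hm0, ?_⟩
    rintro q Q hq _ β s t hst hqg hs ht _ ⟨x, hx, rfl⟩
    exact hm q Q (by linarith) β s t hst hqg hs ht x hx
  have hAB : KappaMorse κ b → KappaMorseContinuous κ b := by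
    rintro ⟨m, hm0, hm⟩
    exact ⟨m, hm0, fun q Q hq hQ β s t hst _ hqg hs ht => hm q Q hq hQ β s t hst hqg hs ht⟩
  have hB : KappaMorseContinuous κ b → Superlinear κ b := by
    rintro ⟨m, hm0, hm⟩
    refine imp_superlinear hκ1 (fun C => ?_)
    refine ⟨max 4 (8 * m (2 * C + 2) 4 * (C + 1) + 1), ?_⟩
    intro r hr t ht hrt hconn
    have hk := hκ1 t ht
    have hr4 : 4 ≤ r := (le_max_left _ _).trans hr
    have hr2 : 8 * m (2 * C + 2) 4 * (C + 1) + 1 ≤ r := (le_max_right _ _).trans hr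
    have hR4 : 4 ≤ r * κ t := by nlinarith
    have hC0 : (0:ℝ) ≤ C := Nat.cast_nonneg C
    have h1 := Q195.KM.dirB hX hb (fun s t hs hst => hmono hs (hs.trans hst) hst) hκ1
      (fun l t hl ht => Q195.KM.kappa_mul hκ1 hconc hl ht) (m := m (2 * C + 2) 4) C
      (fun β s t hst hc hqg hs ht x hx =>
        hm (2 * C + 2) 4 (by linarith) (by norm_num) β s t hst hc hqg hs ht ⟨x, hx, rfl⟩)
      hR4 hrt hconn
    have h2 : r ≤ 8 * m (2 * C + 2) 4 * (C + 1) :=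
      le_of_mul_le_mul_right h1 (by linarith)
    linarith
  exact ⟨⟨fun h => hB (hAB h), hA⟩, ⟨hB, fun h => hAB (hA h)⟩⟩

end Pool.Agent.Results.MP_395cce_al.MorseIffSuperlinear
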